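import Pool.Agent.Helper10.SP.GoalsA
import Pool.Agent.Helper95.Lin.Basics
import Pool.Agent.Helper22.Lin.PhNat

/-! # Packet SP-WCH: chain rule with holomorphic maps -/

open Complex Metric Set Filter Topology MeasureTheory
open scoped ContDiff ComplexConjugate ComplexOrder Manifold Matrix

namespace Pool.Agent.Helper59.SP

open Pool.Agent.Helper95.Lin Pool.Agent.Helper16.Abund Pool.Agent.Helper92.Orb
open Pool.Agent.Helper10.SP Pool.Agent.Helper22.Lin

theorem single_I {n : ℕ} (l : Fin n) : (Pi.single l I : Cn n) = I • (Pi.single l 1 : Cn n) := by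
  ext i
  by_cases h : i = l
  · subst h; simp
  · simp [h]

section lin

variable {n : ℕ} (A : Cn n →L[ℝ] ℂ)

theorem A_smul (c : ℂ) (u : Cn n) : A (c • u) = c.re * A u + c.im * A (I • u) := by
  rw [csmul_eq c u, map_add, map_smul, map_smul]
  simp only [Complex.real_smul]

theorem A_I_smul (c : ℂ) (u : Cn n) : A (I • c • u) = c.re * A (I • u) - c.im * A u := by
  have h : I • c • u = c • (I • u) := smul_comm _ _ _
  have h2 : I • (I • u) = - u := by rw [smul_smul, Complex.I_mul_I]; simp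
  rw [h, A_smul, h2, map_neg]
  ring

theorem phi_smul (c : ℂ) (u : Cn n) :
    A (c • u) - I * A (I • c • u) = c * (A u - I * A (I • u)) := by
  rw [A_smul, A_I_smul]
  conv_rhs => rw [← Complex.re_add_im c]
  linear_combination ((c.im : ℂ) * A (I • u)) * Complex.I_sq

theorem phib_smul (c : ℂ) (u : Cn n) :
    A (c • u) + I * A (I • c • u) = conj c * (A u + I * A (I • u)) := by
  rw [A_smul, A_I_smul]
  have : conj c = c.re - c.im * I := by
    apply Complex.ext <;> simp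
  rw [this]
  linear_combination ((c.im : ℂ) * A (I • u)) * Complex.I_sq

theorem phi_expand (u : Cn n) : A u - I * A (I • u) =
    ∑ p, u p * (A (Pi.single p 1) - I * A (I • (Pi.single p 1 : Cn n))) := by
  have h0 := eq_sum_single u
  have h1 : A u = ∑ p, A (u p • (Pi.single p 1 : Cn n)) := by
    conv_lhs => rw [h0]
    rw [map_sum]
  have h2 : A (I • u) = ∑ p, A (I • u p • (Pi.single p 1 : Cn n)) := by
    conv_lhs => rw [h0]
    rw [Finset.smul_sum, map_sum]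
  rw [h1, h2, Finset.mul_sum, ← Finset.sum_sub_distrib]
  exact Finset.sum_congr rfl fun p _ => phi_smul A (u p) _

theorem phib_expand (u : Cn n) : A u + I * A (I • u) =
    ∑ p, conj (u p) * (A (Pi.single p 1) + I * A (I • (Pi.single p 1 : Cn n))) := by
  have h0 := eq_sum_single u
  have h1 : A u = ∑ p, A (u p • (Pi.single p 1 : Cn n)) := by
    conv_lhs => rw [h0]
    rw [map_sum]
  have h2 : A (I • u) = ∑ p, A (I • u p • (Pi.single p 1 : Cn n)) := by
    conv_lhs => rw [h0]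
    rw [Finset.smul_sum, map_sum]
  rw [h1, h2, Finset.mul_sum, ← Finset.sum_add_distrib]
  exact Finset.sum_congr rfl fun p _ => phib_smul A (u p) _

end lin

section chain

variable {n m : ℕ} {W : Set (Cn n)} {W' : Set (Cn m)} {σ : Cn m → Cn n}

theorem fderiv_chain {F : Type*} [NormedAddCommGroup F] [NormedSpace ℝ F]
    (hW : IsOpen W) (hW' : IsOpen W') (hσ : DifferentiableOn ℂ σ W')
    (hm : MapsTo σ W' W) {f : Cn n → F} (hf : ContDiffOn ℝ ∞ f W) {x : Cn m} (hx : x ∈ W')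
    (e : Cn m) : fderiv ℝ (f ∘ σ) x e = fderiv ℝ f (σ x) (fderiv ℂ σ x e) := by
  have h1 : DifferentiableAt ℝ f (σ x) :=
    (hf.differentiableOn (by simp)).differentiableAt (hW.mem_nhds (hm hx))
  have h2 : DifferentiableAt ℂ σ x := hσ.differentiableAt (hW'.mem_nhds hx)
  rw [fderiv_comp x h1 (h2.restrictScalars ℝ), h2.fderiv_restrictScalars ℝ]
  rfl

theorem cd_chain (hW : IsOpen W) (hW' : IsOpen W') (hσ : DifferentiableOn ℂ σ W')
    (hm : MapsTo σ W' W) {f : Cn n → ℂ} (hf : ContDiffOn ℝ ∞ f W) {x : Cn m} (hx : x ∈ W')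
    (l : Fin m) : cd l (f ∘ σ) x = ∑ j, fderiv ℂ σ x (Pi.single l 1) j * cd j f (σ x) ∧
    cdb l (f ∘ σ) x = ∑ j, conj (fderiv ℂ σ x (Pi.single l 1) j) * cdb j f (σ x) := by
  simp only [cd, cdb, fderiv_chain hW hW' hσ hm hf hx, single_I, map_smul]
  exact ⟨phi_expand _ _, phib_expand _ _⟩

theorem hess_eq (hW : IsOpen W) {φ : Cn n → ℝ} (hφ : ContDiffOn ℝ ∞ φ W) {x : Cn n} (hx : x ∈ W)
    (u v : Cn n) : DifferentiableAt ℝ (fderiv ℝ φ) x ∧
      hess φ x u v = fderiv ℝ (fderiv ℝ φ) x u v := by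
  have hφ2 : DifferentiableAt ℝ (fderiv ℝ φ) x := by
    have h1 : ContDiffOn ℝ ∞ (fderiv ℝ φ) W := ((contDiffOn_infty_iff_fderiv_of_isOpen hW).1 hφ).2
    exact (h1.differentiableOn (by simp)).differentiableAt (hW.mem_nhds hx)
  refine ⟨hφ2, ?_⟩
  have := (hφ2.hasFDerivAt.clm_apply (hasFDerivAt_const v x)).fderiv
  simp only [hess]
  rw [this]
  simp

/-- The Levi matrix in terms of the second derivative. -/
theorem LM_eq (hW : IsOpen W) {φ : Cn n → ℝ} (hφ : ContDiffOn ℝ ∞ φ W) {x : Cn n} (hx : x ∈ W)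
    (j k : Fin n) : LM φ x j k = hB (hess φ x) (Pi.single j 1) (Pi.single k 1) := by
  have hd : ∀ y ∈ W, DifferentiableAt ℝ φ y := fun y hy =>
    (hφ.differentiableOn (by simp)).differentiableAt (hW.mem_nhds hy)
  have h1 : ∀ y ∈ W, ∀ v, fderiv ℝ (fun y => (φ y : ℂ)) y v = (fderiv ℝ φ y v : ℂ) := by
    intro y hy v
    have h2 : HasFDerivAt (fun y => (φ y : ℂ)) (Complex.ofRealCLM.comp (fderiv ℝ φ y)) y :=
      Complex.ofRealCLM.hasFDerivAt.comp y (hd y hy).hasFDerivAt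
    rw [h2.fderiv]
    rfl
  have h3 : ∀ v, DifferentiableAt ℝ (fun y => fderiv ℝ φ y v) x := fun v =>
    ((hess_eq hW hφ hx v v).1).clm_apply (differentiableAt_const v)
  have h4 : ∀ v, HasFDerivAt (fun y => (fderiv ℝ φ y v : ℂ))
      (Complex.ofRealCLM.comp (fderiv ℝ (fun y => fderiv ℝ φ y v) x)) x := fun v =>
    Complex.ofRealCLM.hasFDerivAt.comp x (h3 v).hasFDerivAt
  have h5 : (fun y => cdb k (fun y => (φ y : ℂ)) y) =ᶠ[𝓝 x] fun y =>
      (fderiv ℝ φ y (Pi.single k 1) : ℂ) + I * (fderiv ℝ φ y (Pi.single k I) : ℂ) := by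
    filter_upwards [hW.mem_nhds hx] with y hy
    simp only [cdb, h1 y hy]
  have h6 : ∀ u, fderiv ℝ (cdb k (fun y => (φ y : ℂ))) x u =
      (hess φ x u (Pi.single k 1) : ℂ) + I * (hess φ x u (Pi.single k I) : ℂ) := by
    intro u
    have h7 := ((h4 (Pi.single k 1)).add ((h4 (Pi.single k I)).const_mul I)).fderiv
    have h8 : fderiv ℝ (cdb k (fun y => (φ y : ℂ))) x = fderiv ℝ (fun y =>
      (fderiv ℝ φ y (Pi.single k 1) : ℂ) + I * (fderiv ℝ φ y (Pi.single k I) : ℂ)) x :=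
      h5.fderiv_eq
    rw [h8]
    have h9 : fderiv ℝ (fun y =>
      (fderiv ℝ φ y (Pi.single k 1) : ℂ) + I * (fderiv ℝ φ y (Pi.single k I) : ℂ)) x =
      Complex.ofRealCLM.comp (fderiv ℝ (fun y => fderiv ℝ φ y (Pi.single k 1)) x) +
      I • Complex.ofRealCLM.comp (fderiv ℝ (fun y => fderiv ℝ φ y (Pi.single k I)) x) := h7
    rw [h9]
    rfl
  show cd j (cdb k (fun y => (φ y : ℂ))) x = _
  simp only [cd, h6, hB, single_I]
  linear_combination (- (hess φ x (I • Pi.single j 1) (I • Pi.single k 1) : ℂ)) * Complex.I_sq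

/-- The chain rule for second derivatives. -/
theorem hess_chain (hW : IsOpen W) (hW' : IsOpen W') (hσ : DifferentiableOn ℂ σ W')
    (hm : MapsTo σ W' W) {φ : Cn n → ℝ} (hφ : ContDiffOn ℝ ∞ φ W) {x : Cn m} (hx : x ∈ W')
    (u v : Cn m) : hess (φ ∘ σ) x u v = hess φ (σ x) (fderiv ℂ σ x u) (fderiv ℂ σ x v) +
      fderiv ℝ φ (σ x) (fderiv ℂ (fun y => fderiv ℂ σ y v) x u) := by
  have hσd : ∀ y ∈ W', DifferentiableAt ℂ σ y := fun y hy =>
    hσ.differentiableAt (hW'.mem_nhds hy)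
  obtain ⟨hφ2, -⟩ := hess_eq hW hφ (hm hx) 0 0
  have hq2 : DifferentiableAt ℂ (fun y => fderiv ℂ σ y v) x :=
    ((holo_fderiv hW' hσ).differentiableAt (hW'.mem_nhds hx)).clm_apply (differentiableAt_const v)
  rw [(hess_eq hW hφ (hm hx) _ _).2]
  have hev : (fun y => fderiv ℝ (φ ∘ σ) y v) =ᶠ[𝓝 x]
      fun y => fderiv ℝ φ (σ y) (fderiv ℂ σ y v) := by
    filter_upwards [hW'.mem_nhds hx] with y hy
    exact fderiv_chain hW hW' hσ hm hφ hy v
  have hA : HasFDerivAt (fun y => fderiv ℝ φ (σ y))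
      ((fderiv ℝ (fderiv ℝ φ) (σ x)).comp ((fderiv ℂ σ x).restrictScalars ℝ)) x := by
    have h1 : HasFDerivAt σ ((fderiv ℂ σ x).restrictScalars ℝ) x :=
      ((hσd x hx).hasFDerivAt).restrictScalars ℝ
    exact hφ2.hasFDerivAt.comp x h1
  have hC : HasFDerivAt (fun y => fderiv ℂ σ y v)
      ((fderiv ℂ (fun y => fderiv ℂ σ y v) x).restrictScalars ℝ) x :=
    (hq2.hasFDerivAt).restrictScalars ℝ
  have h2 := (hA.clm_apply hC)
  simp only [hess]
  rw [hev.fderiv_eq, h2.fderiv]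
  simp only [_root_.add_apply, ContinuousLinearMap.comp_apply,
    ContinuousLinearMap.flip_apply, ContinuousLinearMap.coe_restrictScalars']
  rw [add_comm]

theorem second_I (hW' : IsOpen W') (hσ : DifferentiableOn ℂ σ W') {x : Cn m} (hx : x ∈ W')
    (u v : Cn m) :
    fderiv ℂ (fun y => fderiv ℂ σ y (I • v)) x u = I • fderiv ℂ (fun y => fderiv ℂ σ y v) x u := by
  have hq2 : DifferentiableAt ℂ (fun y => fderiv ℂ σ y v) x :=
    ((holo_fderiv hW' hσ).differentiableAt (hW'.mem_nhds hx)).clm_apply (differentiableAt_const v)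
  simp only [map_smul]
  rw [fderiv_fun_const_smul hq2]
  rfl

theorem lev_chain (hW : IsOpen W) (hW' : IsOpen W') (hσ : DifferentiableOn ℂ σ W')
    (hm : MapsTo σ W' W) {φ : Cn n → ℝ} (hφ : ContDiffOn ℝ ∞ φ W) {x : Cn m} (hx : x ∈ W')
    (e : Cn m) : lev (φ ∘ σ) x e = lev φ (σ x) (fderiv ℂ σ x e) := by
  simp only [lev, hess_chain hW hW' hσ hm hφ hx, second_I hW' hσ hx]
  have h : ∀ w : Cn n, I • (I • w) = - w := fun w => by
    rw [smul_smul, Complex.I_mul_I]; simp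
  simp only [map_smul, h, map_neg]
  ring

theorem hB_chain (hW : IsOpen W) (hW' : IsOpen W') (hσ : DifferentiableOn ℂ σ W')
    (hm : MapsTo σ W' W) {φ : Cn n → ℝ} (hφ : ContDiffOn ℝ ∞ φ W) {x : Cn m} (hx : x ∈ W')
    (u v : Cn m) : hB (hess (φ ∘ σ) x) u v =
      hB (hess φ (σ x)) (fderiv ℂ σ x u) (fderiv ℂ σ x v) := by
  have h : ∀ w : Cn n, I • (I • w) = - w := fun w => by
    rw [smul_smul, Complex.I_mul_I]; simp
  simp only [hB, hess_chain hW hW' hσ hm hφ hx, second_I hW' hσ hx]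
  simp only [map_smul, h, map_neg]
  push_cast
  ring

theorem LM_chain (hW : IsOpen W) (hW' : IsOpen W') (hσ : DifferentiableOn ℂ σ W')
    (hm : MapsTo σ W' W) {φ : Cn n → ℝ} (hφ : ContDiffOn ℝ ∞ φ W) {x : Cn m} (hx : x ∈ W')
    (j k : Fin m) : LM (φ ∘ σ) x j k = ∑ p, ∑ q, fderiv ℂ σ x (Pi.single j 1) p *
      conj (fderiv ℂ σ x (Pi.single k 1) q) * LM φ (σ x) p q := by
  have hsm : ContDiffOn ℝ ∞ (φ ∘ σ) W' := hφ.comp (holo_contDiffOn_real hW' hσ) hm
  rw [LM_eq hW' hsm hx, hB_chain hW hW' hσ hm hφ hx]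
  have h1 : hess φ (σ x) = fun a b => fderiv ℝ (fderiv ℝ φ) (σ x) a b := by
    ext u v; exact (hess_eq hW hφ (hm hx) u v).2
  have h2 : ∀ p q, LM φ (σ x) p q = hB (hess φ (σ x)) (Pi.single p 1) (Pi.single q 1) :=
    fun p q => LM_eq hW hφ (hm hx) p q
  simp only [h2, h1]
  exact hB_expand _ _ _

end chain

section log

variable {n : ℕ} {W : Set (Cn n)} {h : Cn n → ℂ}

theorem log_smooth (hW : IsOpen W) (hh : DifferentiableOn ℂ h W) (h0 : ∀ x ∈ W, h x ≠ 0) :
    ContDiffOn ℝ ∞ (fun y => Real.log (‖h y‖ ^ 2)) W := by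
  have h1 : ContDiffOn ℝ ∞ h W := holo_contDiffOn_real hW hh
  have h2 : ContDiffOn ℝ ∞ (fun y => ‖h y‖ ^ 2) W := h1.norm_sq ℝ
  refine h2.log fun x hx => ?_
  have := norm_pos_iff.2 (h0 x hx)
  positivity

theorem log_fderiv (hW : IsOpen W) (hh : DifferentiableOn ℂ h W) (h0 : ∀ x ∈ W, h x ≠ 0)
    {x : Cn n} (hx : x ∈ W) (v : Cn n) :
    fderiv ℝ (fun y => Real.log (‖h y‖ ^ 2)) x v = 2 * (fderiv ℂ h x v / h x).re := by
  have hd : DifferentiableAt ℂ h x := hh.differentiableAt (hW.mem_nhds hx)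
  have h1 : HasFDerivAt h ((fderiv ℂ h x).restrictScalars ℝ) x := hd.hasFDerivAt.restrictScalars ℝ
  have h2 := h1.norm_sq
  have hne : ‖h x‖ ^ 2 ≠ 0 := by
    have := norm_pos_iff.2 (h0 x hx)
    positivity
  have h3 := (h2.log hne).fderiv
  rw [h3]
  have h4 : (fderiv ℂ h x v / h x).re = (‖h x‖ ^ 2)⁻¹ *
      ((h x).re * (fderiv ℂ h x v).re + (h x).im * (fderiv ℂ h x v).im) := by
    rw [Complex.div_re, Complex.normSq_eq_norm_sq]
    field_simp
  rw [h4]
  simp [Complex.inner]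
  ring

theorem p_holo (hW : IsOpen W) (hh : DifferentiableOn ℂ h W) (h0 : ∀ x ∈ W, h x ≠ 0) (v : Cn n) :
    DifferentiableOn ℂ (fun y => fderiv ℂ h y v / h y) W := by
  have h1 : DifferentiableOn ℂ (fun y => fderiv ℂ h y v) W :=
    (holo_fderiv hW hh).clm_apply (differentiableOn_const v)
  simp only [div_eq_mul_inv]
  exact h1.mul (hh.fun_inv h0)

theorem log_hess (hW : IsOpen W) (hh : DifferentiableOn ℂ h W) (h0 : ∀ x ∈ W, h x ≠ 0)
    {x : Cn n} (hx : x ∈ W) (u v : Cn n) :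
    hess (fun y => Real.log (‖h y‖ ^ 2)) x u v =
      2 * (fderiv ℂ (fun y => fderiv ℂ h y v / h y) x u).re := by
  have h1 : (fun y => fderiv ℝ (fun y => Real.log (‖h y‖ ^ 2)) y v) =ᶠ[𝓝 x]
      fun y => 2 * (fderiv ℂ h y v / h y).re := by
    filter_upwards [hW.mem_nhds hx] with y hy
    exact log_fderiv hW hh h0 hy v
  have h2 : HasFDerivAt (fun y => fderiv ℂ h y v / h y)
      ((fderiv ℂ (fun y => fderiv ℂ h y v / h y) x).restrictScalars ℝ) x :=
    ((p_holo hW hh h0 v).differentiableAt (hW.mem_nhds hx)).hasFDerivAt.restrictScalars ℝ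
  have h3 : HasFDerivAt (fun y => (fderiv ℂ h y v / h y).re)
      (Complex.reCLM.comp ((fderiv ℂ (fun y => fderiv ℂ h y v / h y) x).restrictScalars ℝ)) x :=
    Complex.reCLM.hasFDerivAt.comp x h2
  simp only [hess]
  rw [h1.fderiv_eq, (h3.const_mul 2).fderiv]
  rfl

theorem log_p_I (hW : IsOpen W) (hh : DifferentiableOn ℂ h W) (h0 : ∀ x ∈ W, h x ≠ 0)
    {x : Cn n} (hx : x ∈ W) (u v : Cn n) :
    fderiv ℂ (fun y => fderiv ℂ h y (I • v) / h y) x u =
      I * fderiv ℂ (fun y => fderiv ℂ h y v / h y) x u := by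
  have h1 : (fun y => fderiv ℂ h y (I • v) / h y) = fun y => I • (fderiv ℂ h y v / h y) := by
    funext y
    simp only [map_smul, smul_eq_mul]
    ring
  rw [h1, fderiv_fun_const_smul ((p_holo hW hh h0 v).differentiableAt (hW.mem_nhds hx))]
  rfl

theorem log_lev (hW : IsOpen W) (hh : DifferentiableOn ℂ h W) (h0 : ∀ x ∈ W, h x ≠ 0)
    {x : Cn n} (hx : x ∈ W) (e : Cn n) : lev (fun y => Real.log (‖h y‖ ^ 2)) x e = 0 := by
  simp only [lev, log_hess hW hh h0 hx, log_p_I hW hh h0 hx]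
  simp

theorem log_LM (hW : IsOpen W) (hh : DifferentiableOn ℂ h W) (h0 : ∀ x ∈ W, h x ≠ 0)
    {x : Cn n} (hx : x ∈ W) : LM (fun y => Real.log (‖h y‖ ^ 2)) x = 0 := by
  ext j k
  rw [LM_eq hW (log_smooth hW hh h0) hx]
  simp only [hB, log_hess hW hh h0 hx, log_p_I hW hh h0 hx]
  simp

theorem cd_holo (hW : IsOpen W) (hh : DifferentiableOn ℂ h W) {x : Cn n} (hx : x ∈ W)
    (l : Fin n) : cd l h x = 2 * fderiv ℂ h x (Pi.single l 1) := by
  have hd : DifferentiableAt ℂ h x := hh.differentiableAt (hW.mem_nhds hx)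
  have h1 : ∀ v, fderiv ℝ h x v = fderiv ℂ h x v := fun v => by
    rw [hd.fderiv_restrictScalars ℝ]
    rfl
  simp only [cd, h1, single_I, map_smul, smul_eq_mul]
  linear_combination (- fderiv ℂ h x (Pi.single l 1)) * Complex.I_sq

theorem log_cd (hW : IsOpen W) (hh : DifferentiableOn ℂ h W) (h0 : ∀ x ∈ W, h x ≠ 0)
    {x : Cn n} (hx : x ∈ W) (l : Fin n) :
    cd l (fun y => ((Real.log (‖h y‖ ^ 2) : ℝ) : ℂ)) x = cd l h x / h x := by
  have hs := log_smooth hW hh h0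
  have hd : DifferentiableAt ℝ (fun y => Real.log (‖h y‖ ^ 2)) x :=
    (hs.differentiableOn (by simp)).differentiableAt (hW.mem_nhds hx)
  have h1 : ∀ v, fderiv ℝ (fun y => ((Real.log (‖h y‖ ^ 2) : ℝ) : ℂ)) x v =
      ((fderiv ℝ (fun y => Real.log (‖h y‖ ^ 2)) x v : ℝ) : ℂ) := by
    intro v
    have h2 : HasFDerivAt (fun y => ((Real.log (‖h y‖ ^ 2) : ℝ) : ℂ))
        (Complex.ofRealCLM.comp (fderiv ℝ (fun y => Real.log (‖h y‖ ^ 2)) x)) x :=
      Complex.ofRealCLM.hasFDerivAt.comp x hd.hasFDerivAt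
    rw [h2.fderiv]
    rfl
  rw [cd_holo hW hh hx]
  simp only [cd, h1, log_fderiv hW hh h0 hx, single_I, map_smul, smul_eq_mul]
  have h3 : I * fderiv ℂ h x (Pi.single l 1) / h x = I * (fderiv ℂ h x (Pi.single l 1) / h x) := by
    ring
  rw [h3, mul_div_assoc]
  generalize fderiv ℂ h x (Pi.single l 1) / h x = p
  apply Complex.ext <;> simp

end log

theorem wch : S_WCH := by
  refine ⟨?_, ?_⟩
  · intro n m W W' hW hW' σ hσ hm
    exact ⟨fun f hf l x hx => cd_chain hW hW' hσ hm hf hx l, fun φ hφ x hx =>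
      ⟨fun e => lev_chain hW hW' hσ hm hφ hx e, fun j k => LM_chain hW hW' hσ hm hφ hx j k⟩⟩
  · intro n W hW h hh h0
    exact ⟨log_smooth hW hh h0, fun x hx => ⟨fun e => log_lev hW hh h0 hx e, log_LM hW hh h0 hx,
      fun l => log_cd hW hh h0 hx l⟩⟩

end Pool.Agent.Helper59.SP
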