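import Pool.Agent.Helper10.SP.GoalsE
import Pool.Agent.Helper95.Lin.Basics

/-! # Packet SP-CNJ: conjugation of elements near the identity -/

open Complex Metric Set Filter Topology MeasureTheory
open scoped ContDiff ComplexConjugate

namespace Pool.Agent.Helper59.SP

open Pool.Agent.Helper95.Lin Pool.Agent.Helper10.SP

/-- The identity theorem on a ball. -/
theorem idt {n : ℕ} {F : Type*} [NormedAddCommGroup F] [NormedSpace ℂ F] [CompleteSpace F]
    {z₀ : Cn n} {r : ℝ} {f f' : Cn n → F} (hf : DifferentiableOn ℂ f (ball z₀ r))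
    (hf' : DifferentiableOn ℂ f' (ball z₀ r)) {z : Cn n} (hz : z ∈ ball z₀ r)
    (heq : f =ᶠ[𝓝 z] f') : EqOn f f' (ball z₀ r) := by
  intro y hy
  obtain ⟨l, hl⟩ : ∃ l : ℂ → Cn n, l = fun ζ => z + ζ • (y - z) := ⟨_, rfl⟩
  have hlc : Continuous l := by
    rw [hl]
    fun_prop
  have hld : Differentiable ℂ l := by
    rw [hl]
    fun_prop
  have hS : IsOpen (l ⁻¹' ball z₀ r) := isOpen_ball.preimage hlc
  have hconv : Convex ℝ (l ⁻¹' ball z₀ r) := by
    intro ζ hζ ζ' hζ' s s' hs hs' hss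
    have h1 : l (s • ζ + s' • ζ') = s • l ζ + s' • l ζ' := by
      simp only [hl]
      have h2 : z = s • z + s' • z := by
        rw [← add_smul, hss, one_smul]
      nth_rewrite 1 [h2]
      simp only [add_smul, smul_add, smul_assoc]
      abel
    rw [mem_preimage, h1]
    exact convex_ball z₀ r hζ hζ' hs hs' hss
  have h0 : (0 : ℂ) ∈ l ⁻¹' ball z₀ r := by
    rw [mem_preimage, hl]
    simpa using hz
  have h1 : (1 : ℂ) ∈ l ⁻¹' ball z₀ r := by
    rw [mem_preimage, hl]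
    simpa using hy
  have a1 : AnalyticOnNhd ℂ (f ∘ l) (l ⁻¹' ball z₀ r) :=
    (hf.comp hld.differentiableOn (mapsTo_preimage _ _)).analyticOnNhd hS
  have a2 : AnalyticOnNhd ℂ (f' ∘ l) (l ⁻¹' ball z₀ r) :=
    (hf'.comp hld.differentiableOn (mapsTo_preimage _ _)).analyticOnNhd hS
  have hl0 : l 0 = z := by simp [hl]
  have hev : (f ∘ l) =ᶠ[𝓝 0] (f' ∘ l) := by
    have : Tendsto l (𝓝 0) (𝓝 z) := by
      rw [← hl0]
      exact hlc.tendsto 0
    exact this.eventually heq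
  have h2 := a1.eqOn_of_preconnected_of_eventuallyEq a2 hconv.isPreconnected h0 hev h1
  simpa [hl] using h2

theorem cnj (hNCV : S_NCV) : S_CNJ := by
  intro b N c R P Φ C hF i j U s hs x hxU hx hy
  obtain ⟨hUo, hUR, hsg, hsa, hsb, hsne⟩ := hF.holo U s hs
  obtain ⟨k, U', U'', hk, hyU', hU''o, hxU'', hU''U, hmaps, hks⟩ := hF.inv U s hs x hxU
  obtain ⟨hU'o, -, hkg, hka, hkb, hkne⟩ := hF.holo U' k hk
  have hsc : ContinuousAt s.g x := (hsg.differentiableAt (hUo.mem_nhds hxU)).continuousAt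
  have hkc : ContinuousAt k.g (s.g x) := (hkg.differentiableAt (hU'o.mem_nhds hyU')).continuousAt
  have hks' : ∀ z ∈ U'', k.g (s.g z) = z ∧ k.a (s.g z) * s.a z = 1 ∧
      k.a (s.g z) * s.β z + k.β (s.g z) = 0 := fun z hz => hks z hz
  have hkx : k.g (s.g x) = x := (hks' x hxU'').1
  -- the other inverse
  have hsk : ∀ᶠ w in 𝓝 (s.g x), s.g (k.g w) = w := by
    have hcd : ContDiffAt ℂ 1 s.g x :=
      ((holo_contDiffOn hUo hsg).contDiffAt (hUo.mem_nhds hxU)).of_le (by simp)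
    have hstr : HasStrictFDerivAt s.g (fderiv ℂ s.g x) x := hcd.hasStrictFDerivAt one_ne_zero
    have hdet : (fderiv ℂ s.g x).det ≠ 0 := (hF.pot U s hs x hxU).1
    obtain ⟨f', hf'⟩ : ∃ f' : Cn b ≃L[ℂ] Cn b, (f' : Cn b →L[ℂ] Cn b) = fderiv ℂ s.g x :=
      ⟨(fderiv ℂ s.g x).toContinuousLinearEquivOfDetNeZero hdet, by ext x; simp⟩
    rw [← hf'] at hstr
    have hm := hstr.map_nhds_eq_of_equiv
    rw [← hm, eventually_map]
    filter_upwards [hU''o.mem_nhds hxU''] with z hz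
    rw [(hks' z hz).1]
  -- the radius `e`
  have hx3 : x ∈ ball (c i) 3 := ball_subset_ball (by norm_num) hx
  obtain ⟨d, hd, hds⟩ := Metric.mem_nhds_iff.1 (inter_mem (inter_mem (hUo.mem_nhds hxU)
    (isOpen_ball.mem_nhds hx3)) (hsc.preimage_mem_nhds (isOpen_ball.mem_nhds hy)))
  set e : ℝ := d / 3 with he
  have he0 : 0 < e := by positivity
  have hcb : closedBall x (2 * e) ⊆ ball x d := closedBall_subset_ball (by rw [he]; linarith)
  have hbe : ball x e ⊆ closedBall x (2 * e) :=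
    (ball_subset_closedBall).trans (closedBall_subset_closedBall (by linarith))
  have hK : IsCompact (closedBall x (2 * e)) := isCompact_closedBall x (2 * e)
  have hKU : closedBall x (2 * e) ⊆ U := fun z hz => (hds (hcb hz)).1.1
  have hK3 : closedBall x (2 * e) ⊆ ball (c i) 3 := fun z hz => (hds (hcb hz)).1.2
  have hKs : ∀ z ∈ closedBall x (2 * e), s.g z ∈ ball (c j) 2 := fun z hz => (hds (hcb hz)).2
  have hy4 : s.g x ∈ ball (c j) 4 := ball_subset_ball (by norm_num) hy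
  -- the radius `ρ₀`
  have h1 : k.g ⁻¹' ball x e ∈ 𝓝 (s.g x) :=
    hkc.preimage_mem_nhds (isOpen_ball.mem_nhds (by rw [hkx]; exact mem_ball_self he0))
  obtain ⟨ρ₀, hρ₀, hρs⟩ := Metric.mem_nhds_iff.1 (inter_mem (inter_mem
    (isOpen_ball.mem_nhds hy4) h1) hsk)
  refine ⟨e, he0, fun z hz => hKU (hbe hz), fun z hz => hK3 (hbe hz),
    fun z hz => ball_subset_ball (by norm_num) (hKs z (hbe hz)), fun ε hε => ?_⟩
  obtain ⟨η₁, hη₁, hη₁'⟩ := hNCV c R P Φ C hF j (s.g x) ρ₀ hρ₀ (fun w hw => (hρs hw).1.1) 3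
    (by norm_num) ε hε
  -- uniform continuity
  have hgc : ContinuousOn s.g (closedBall x (2 * e)) := (hsg.mono hKU).continuousOn
  have hac : ContinuousOn s.a (closedBall x (2 * e)) := (hsa.mono hKU).continuousOn
  have hgu := hK.uniformContinuousOn_of_continuous hgc
  have hau := hK.uniformContinuousOn_of_continuous hac
  obtain ⟨m, hm0, hm⟩ : ∃ m > 0, ∀ z ∈ closedBall x (2 * e), m ≤ ‖s.a z‖ := by
    obtain ⟨z₁, hz₁, hmin⟩ := hK.exists_isMinOn ⟨x, mem_closedBall_self (by positivity)⟩ hac.norm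
    exact ⟨‖s.a z₁‖, norm_pos_iff.2 (hsne z₁ (hKU hz₁)).2, fun z hz => hmin hz⟩
  rw [Metric.uniformContinuousOn_iff] at hgu hau
  obtain ⟨δ₁, hδ₁, hδ₁'⟩ := hgu η₁ hη₁
  obtain ⟨δ₂, hδ₂, hδ₂'⟩ := hau (m * η₁ / 4) (by positivity)
  obtain ⟨η, hη0, hη1, hη2, hη3, hη4, hη5⟩ : ∃ η : ℝ, 0 < η ∧ η < e ∧ η < δ₁ ∧ η < δ₂ ∧ η ≤ 1 ∧
      η ≤ η₁ / 2 := by
    refine ⟨min (min (e / 2) (δ₁ / 2)) (min (δ₂ / 2) (min 1 (η₁ / 2))), ?_, ?_, ?_, ?_, ?_, ?_⟩
    · positivity
    · exact ((min_le_left _ _).trans (min_le_left _ _)).trans_lt (by linarith)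
    · exact ((min_le_left _ _).trans (min_le_right _ _)).trans_lt (by linarith)
    · exact ((min_le_right _ _).trans (min_le_left _ _)).trans_lt (by linarith)
    · exact ((min_le_right _ _).trans (min_le_right _ _)).trans (min_le_left _ _)
    · exact ((min_le_right _ _).trans (min_le_right _ _)).trans (min_le_right _ _)
  refine ⟨η, hη0, fun t ht => ?_⟩
  obtain ⟨htB, htn⟩ := ht
  obtain ⟨-, -, htg, hta, htb, htne⟩ := hF.holo _ t htB.1
  have hmv : ∀ z ∈ ball x e, t.g z ∈ closedBall x (2 * e) := by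
    intro z hz
    have h2 := (htn z (hK3 (hbe hz))).1
    rw [mem_closedBall_iff_norm]
    rw [mem_ball_iff_norm] at hz
    calc ‖t.g z - x‖ = ‖(t.g z - z) + (z - x)‖ := by congr 1; abel
      _ ≤ ‖t.g z - z‖ + ‖z - x‖ := norm_add_le _ _
      _ ≤ 2 * e := by linarith
  have hmU : MapsTo t.g (ball x e) U := fun z hz => hKU (hmv z hz)
  refine ⟨hmU, ?_⟩
  have hxe : x ∈ ball x e := mem_ball_self he0
  have h3to4 : ball (c i) 3 ⊆ ball (c i) 4 := ball_subset_ball (by norm_num)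
  -- `t ∘ k`
  have hV1 : IsOpen (U' ∩ k.g ⁻¹' ball x e) :=
    hkg.continuousOn.isOpen_inter_preimage hU'o isOpen_ball
  have hP1 : P (U' ∩ k.g ⁻¹' ball x e) (t.comp k) :=
    hF.comp (ball (c i) 4) U' _ t k htB.1 hk hV1 inter_subset_left
      fun z hz => h3to4 (hK3 (hbe hz.2))
  have hP2 : P (U' ∩ k.g ⁻¹' ball x e) (s.comp (t.comp k)) :=
    hF.comp U _ _ s (t.comp k) hs hP1 hV1 subset_rfl fun z hz => hmU hz.2
  have hyV : s.g x ∈ U' ∩ k.g ⁻¹' ball x e := ⟨hyU', by rw [mem_preimage, hkx]; exact hxe⟩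
  have hval : (s.comp (t.comp k)).g (s.g x) = s.g (t.g x) := by
    change s.g (t.g (k.g (s.g x))) = _
    rw [hkx]
  have hB : (s.comp (t.comp k)).g (s.g x) ∈ Bd c 2 := by
    rw [hval]
    exact mem_iUnion.2 ⟨j, hKs _ (hmv x hxe)⟩
  obtain ⟨T, U3, hPT, hU3o, hyU3, hU3s, hE⟩ := hF.ext j (s.g x) hy _ _ hP2 hyV hB
  obtain ⟨-, -, hTg, hTa, hTb, -⟩ := hF.holo _ T hPT
  have hTB : Big c P j T := by
    refine ⟨hPT, s.g x, hy, ?_⟩
    rw [(hE _ hyU3).1]
    exact hB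
  -- near `x`
  have hnear : ∀ᶠ z in 𝓝 x, (T.comp s).g z = (s.comp t).g z ∧ (T.comp s).a z = (s.comp t).a z ∧
      (T.comp s).β z = (s.comp t).β z := by
    filter_upwards [hsc.eventually_mem (hU3o.mem_nhds hyU3), hU''o.mem_nhds hxU''] with z hz1 hz2
    obtain ⟨q1, q2, q3⟩ := hE _ hz1
    obtain ⟨r1, r2, r3⟩ := hks' z hz2
    have p1 : (s.comp (t.comp k)).g (s.g z) = s.g (t.g z) := by
      change s.g (t.g (k.g (s.g z))) = _
      rw [r1]
    have p2 : (s.comp (t.comp k)).a (s.g z) = s.a (t.g z) * (t.a z * k.a (s.g z)) := by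
      change s.a (t.g (k.g (s.g z))) * (t.a (k.g (s.g z)) * k.a (s.g z)) = _
      rw [r1]
    have p3 : (s.comp (t.comp k)).β (s.g z) =
        s.a (t.g z) * (t.a z * k.β (s.g z) + t.β z) + s.β (t.g z) := by
      change s.a (t.g (k.g (s.g z))) * (t.a (k.g (s.g z)) * k.β (s.g z) + t.β (k.g (s.g z))) +
        s.β (t.g (k.g (s.g z))) = _
      rw [r1]
    refine ⟨?_, ?_, ?_⟩
    · change T.g (s.g z) = s.g (t.g z)
      rw [q1, p1]
    · change T.a (s.g z) * s.a z = s.a (t.g z) * t.a z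
      rw [q2, p2]
      linear_combination (s.a (t.g z) * t.a z) * r2
    · change T.a (s.g z) * s.β z + T.β (s.g z) = s.a (t.g z) * t.β z + s.β (t.g z)
      rw [q2, q3, p2, p3]
      linear_combination (s.a (t.g z) * t.a z) * r3
  -- on the ball
  have hsb4 : MapsTo s.g (ball x e) (ball (c j) 4) := fun z hz =>
    ball_subset_ball (by norm_num) (hKs z (hbe hz))
  have hb4 : ball x e ⊆ ball (c i) 4 := fun z hz => h3to4 (hK3 (hbe hz))
  have hbU : ball x e ⊆ U := fun z hz => hKU (hbe hz)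
  have dTg : DifferentiableOn ℂ (fun z => T.g (s.g z)) (ball x e) :=
    hTg.comp (hsg.mono hbU) hsb4
  have dTa : DifferentiableOn ℂ (fun z => T.a (s.g z)) (ball x e) :=
    hTa.comp (hsg.mono hbU) hsb4
  have dTb : DifferentiableOn ℂ (fun z => T.β (s.g z)) (ball x e) :=
    hTb.comp (hsg.mono hbU) hsb4
  have dsg : DifferentiableOn ℂ (fun z => s.g (t.g z)) (ball x e) :=
    hsg.comp (htg.mono hb4) hmU
  have dsa : DifferentiableOn ℂ (fun z => s.a (t.g z)) (ball x e) :=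
    hsa.comp (htg.mono hb4) hmU
  have dsb : DifferentiableOn ℂ (fun z => s.β (t.g z)) (ball x e) :=
    hsb.comp (htg.mono hb4) hmU
  have hEq : (T.comp s).EqOn (s.comp t) (ball x e) := by
    intro z hz
    refine ⟨?_, ?_, ?_⟩
    · exact idt (f := (T.comp s).g) (f' := (s.comp t).g) dTg dsg hxe
        (hnear.mono fun z hz => hz.1) hz
    · exact idt (f := (T.comp s).a) (f' := (s.comp t).a) (dTa.mul (hsa.mono hbU))
        (dsa.mul (hta.mono hb4)) hxe (hnear.mono fun z hz => hz.2.1) hz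
    · exact idt (f := (T.comp s).β) (f' := (s.comp t).β)
        ((dTa.mul (hsb.mono hbU)).add dTb) ((dsa.mul (htb.mono hb4)).add dsb) hxe
        (hnear.mono fun z hz => hz.2.2) hz
  refine ⟨T, ⟨hTB, ?_⟩, hEq⟩
  refine hη₁' T hTB fun w hw => ?_
  have hze : k.g w ∈ ball x e := (hρs hw).1.2
  have hsw : s.g (k.g w) = w := (hρs hw).2
  set z := k.g w with hz
  obtain ⟨E1, E2, -⟩ := hEq z hze
  have E1' : T.g w = s.g (t.g z) := by
    rw [← hsw]
    exact E1
  have E2' : T.a w * s.a z = s.a (t.g z) * t.a z := by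
    rw [← hsw]
    exact E2
  have hz2 : z ∈ closedBall x (2 * e) := hbe hze
  have htz := htn z (hK3 hz2)
  constructor
  · rw [E1']
    have h4 := hδ₁' _ (hmv z hze) _ hz2 (by rw [dist_eq_norm]; linarith [htz.1])
    rw [dist_eq_norm, hsw] at h4
    exact h4.le
  · have h4 := hδ₂' _ (hmv z hze) _ hz2 (by rw [dist_eq_norm]; linarith [htz.1])
    rw [dist_eq_norm] at h4
    have hsz : m ≤ ‖s.a z‖ := hm z hz2
    have hsz0 : 0 < ‖s.a z‖ := hm0.trans_le hsz
    have h5 : (T.a w - 1) * s.a z = (s.a (t.g z) - s.a z) * t.a z + s.a z * (t.a z - 1) := by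
      linear_combination E2'
    have hta2 : ‖t.a z‖ ≤ 2 := by
      calc ‖t.a z‖ = ‖(t.a z - 1) + 1‖ := by congr 1; ring
        _ ≤ ‖t.a z - 1‖ + ‖(1 : ℂ)‖ := norm_add_le _ _
        _ ≤ 2 := by rw [norm_one]; linarith [htz.2]
    have h6 : ‖T.a w - 1‖ * ‖s.a z‖ ≤ (m * η₁ / 4) * 2 + ‖s.a z‖ * (η₁ / 2) := by
      rw [← norm_mul, h5]
      refine (norm_add_le _ _).trans ?_
      rw [norm_mul, norm_mul]
      refine add_le_add ?_ ?_
      · exact mul_le_mul h4.le hta2 (norm_nonneg _) (by positivity)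
      · exact mul_le_mul_of_nonneg_left (htz.2.trans hη5) (norm_nonneg _)
    have h7 : ‖T.a w - 1‖ * ‖s.a z‖ ≤ η₁ * ‖s.a z‖ := by
      nlinarith [mul_le_mul_of_nonneg_right hsz hη₁.le]
    exact le_of_mul_le_mul_right h7 hsz0

end Pool.Agent.Helper59.SP
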